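import Pool.Agent.W147.LF.Stm2

open Polynomial Pool.Agent.W147.LF

namespace Pool.Agent.W537.LF

theorem two_ne_zero_K (K : Type) [Field K] [Fintype K] (hodd : Odd (Fintype.card K)) :
    (2 : K) ≠ 0 := by
  apply Ring.two_ne_zero
  intro h
  have h1 := FiniteField.even_card_of_char_two h
  rcases hodd with ⟨k, hk⟩
  omega

theorem der_u (K : Type) [Field K] [Fintype K] (h2 : (2 : K) ≠ 0) (s V E : K[X])
    (hE' : derivative E = 0) :
    derivative ((X + E) ^ 2 + E ^ 4 + V ^ Fintype.card K + s) = C 2 * (Y s + E) := by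
  have hq0 : ((Fintype.card K : ℕ) : K) = 0 := FiniteField.cast_card_eq_zero K
  have h22 : (C (2 : K) * C (2⁻¹ : K) : K[X]) = 1 := by
    rw [← C_mul, mul_inv_cancel₀ h2, C_1]
  have h3 : (C (2 : K) : K[X]) = 2 := by
    rw [show (2 : K) = ((2 : ℕ) : K) by norm_num, C_eq_natCast]
    norm_num
  unfold Y
  rw [derivative_add, derivative_add, derivative_add, derivative_pow, derivative_pow,
    derivative_pow, derivative_add, derivative_X, hE', hq0]
  simp only [C_0, zero_mul, mul_zero, add_zero]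
  have h4 : (C ((2 : ℕ) : K) : K[X]) = C 2 := by norm_num
  rw [h4]
  linear_combination (-(derivative s)) * h22

theorem id_u (K : Type) [Field K] (s W E : K[X]) :
    (Y s + E) ∣ ((X + E) ^ 2 + E ^ 4 + W + s) - (W + H s) := by
  refine ⟨(X + E - C (2⁻¹ : K) * derivative s) + (E - Y s) * (E ^ 2 + Y s ^ 2), ?_⟩
  have hY : Y s = X + C (2⁻¹ : K) * derivative s := rfl
  have hH : H s = Y s ^ 4 + s + (C (2⁻¹ : K) * derivative s) ^ 2 := rfl
  rw [hH]
  have h1 : C (2⁻¹ : K) * derivative s = Y s - X := by rw [hY]; ring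
  rw [h1]
  ring

theorem deg_Y (K : Type) [Field K] (s : K[X]) (e : ℕ) (hsd : s.natDegree < e) (he : 1 < e) :
    (Y s).natDegree < e := by
  unfold Y
  refine lt_of_le_of_lt (natDegree_add_le _ _) (max_lt ?_ ?_)
  · exact lt_of_le_of_lt natDegree_X_le he
  · refine lt_of_le_of_lt (natDegree_C_mul_le _ _) ?_
    exact lt_of_le_of_lt ((natDegree_derivative_le s).trans (Nat.sub_le _ _)) hsd

theorem t_Key2 (hmL : S_RmulL) (hmR : S_RmulR) (hc : S_Rcongr) (hsw : S_Rswap) (hne : S_Rne)
    (hfr : S_Rfrob) (hRC : S_RC) (hP : S_Pel) : S_Key2 := by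
  intro K _ _ hodd s V N Qt f E0 e hQt hf hfi hQN hfact hcop hVd hsd he
  have h2 : (2 : K) ≠ 0 := two_ne_zero_K K hodd
  have hf0 : f ≠ 0 := hf.ne_zero
  have hQ0 : Qt ≠ 0 := hQt.ne_zero
  have hR0 : R Qt (Y s + E0) ≠ 0 := (hne K Qt (Y s + E0) hQ0).2 hcop
  have h2a : (algebraMap K (AlgebraicClosure K)) 2 ≠ 0 := by
    rw [Ne, map_eq_zero]
    exact h2
  have hm1 : ∀ k : ℕ, ((-1 : AlgebraicClosure K)) ^ k ≠ 0 := fun k =>
    pow_ne_zero _ (neg_ne_zero.2 one_ne_zero)
  set A : AlgebraicClosure K := (algebraMap K (AlgebraicClosure K) 2) ^ (4 * e) *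
    ((-1) ^ (e * (f * Qt).natDegree) * R Qt (Y s + E0)) with hA
  have hA0 : A ≠ 0 := mul_ne_zero (pow_ne_zero _ h2a) (mul_ne_zero (hm1 _) hR0)
  set B : AlgebraicClosure K := ((-1) ^ (4 * e * (4 * e - 1) / 2)) ^ hq K * (-1) ^ (4 * e) with hB
  have hB2 : B * B = 1 := by
    have h : ∀ k : ℕ, ((-1 : AlgebraicClosure K) ^ k) * (-1) ^ k = 1 := by
      intro k
      rw [← mul_pow]
      norm_num
    rw [hB, ← pow_mul]
    calc _ = ((-1 : AlgebraicClosure K) ^ (4 * e * (4 * e - 1) / 2 * hq K) *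
          (-1) ^ (4 * e * (4 * e - 1) / 2 * hq K)) * ((-1) ^ (4 * e) * (-1) ^ (4 * e)) := by ring
      _ = 1 := by rw [h, h, one_mul]
  have hB0 : B ≠ 0 := by
    intro h
    rw [h, mul_zero] at hB2
    exact zero_ne_one hB2
  refine ⟨A ^ hq K * B, mul_ne_zero (pow_ne_zero _ hA0) hB0, ?_⟩
  intro E c hc0 hE hEd hE' hNE hfE
  set u : K[X] := (X + E) ^ 2 + E ^ 4 + V ^ Fintype.card K + s with hu
  -- degrees
  have hXE : ((X + E) ^ 2).natDegree ≤ 2 * e := by
    refine natDegree_pow_le.trans ?_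
    have : (X + E).natDegree ≤ e :=
      (natDegree_add_le _ _).trans (max_le (natDegree_X_le.trans he.le) hEd.le)
    omega
  have hsmall : ((X + E) ^ 2 + V ^ Fintype.card K + s).natDegree < 4 * e := by
    refine lt_of_le_of_lt (natDegree_add_le _ _) (max_lt ?_ (by omega))
    exact lt_of_le_of_lt (natDegree_add_le _ _) (max_lt (by omega) (by omega))
  have hE4 : (E ^ 4).natDegree = 4 * e := by rw [hE.natDegree_pow, hEd]
  have hueq : u = ((X + E) ^ 2 + V ^ Fintype.card K + s) + E ^ 4 := by rw [hu]; ring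
  have hum : u.Monic := by
    rw [hueq]
    exact (hE.pow 4).add_of_right (degree_lt_degree (by rw [hE4]; exact hsmall))
  have hud : u.natDegree = 4 * e := by
    rw [hueq, natDegree_add_eq_right_of_natDegree_lt (by rw [hE4]; exact hsmall), hE4]
  have hYd := deg_Y K s e hsd he
  have hPm : (Y s + E).Monic := hE.add_of_right (degree_lt_degree (by rw [hEd]; exact hYd))
  have hPd : (Y s + E).natDegree = e := by
    rw [natDegree_add_eq_right_of_natDegree_lt (by rw [hEd]; exact hYd), hEd]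
  have hder : derivative u = C 2 * (Y s + E) := der_u K h2 s V E hE'
  -- the resultant
  have hR : R u (derivative u) = A * (algebraMap K (AlgebraicClosure K) c) ^ f.natDegree := by
    have e1 : R u (Y s + E) = (-1) ^ (4 * e * e) * R (Y s + E) u := by
      rw [hsw K u (Y s + E) hum hPm, hud, hPd]
    have e1' : ((-1 : AlgebraicClosure K)) ^ (4 * e * e) = 1 := by
      rw [show 4 * e * e = 2 * (2 * e * e) by ring, pow_mul]
      norm_num
    have e2 : R (Y s + E) u = R (Y s + E) (f * Qt) := by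
      rw [← hfact]
      exact hc K _ _ _ (id_u K s (V ^ Fintype.card K) E)
    have e3 : R (Y s + E) (f * Qt) = (-1) ^ (e * (f * Qt).natDegree) * R (f * Qt) (Y s + E) := by
      rw [hsw K (Y s + E) (f * Qt) hPm (hf.mul hQt), hPd]
    have e4 : R (f * Qt) (Y s + E) = R f (Y s + E) * R Qt (Y s + E) :=
      hmL K f Qt _ hf0 hQ0
    have e5 : R f (Y s + E) = (algebraMap K (AlgebraicClosure K) c) ^ f.natDegree := by
      rw [hc K f (Y s + E) (C c) hfE, hRC]
    have e6 : R Qt (Y s + E) = R Qt (Y s + E0) := by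
      apply hc
      have : Y s + E - (Y s + E0) = E - E0 := by ring
      rw [this]
      exact hQN.trans hNE
    rw [hder, hmR, hRC, hud, e1, e1', e2, e3, e4, e5, e6, hA]
    ring
  have hca : (algebraMap K (AlgebraicClosure K)) c ≠ 0 := by
    rw [Ne, map_eq_zero]
    exact hc0
  have hRne : R u (derivative u) ≠ 0 := by
    rw [hR]
    exact mul_ne_zero hA0 (pow_ne_zero _ hca)
  have hcopu : IsCoprime u (derivative u) := (hne K u (derivative u) hum.ne_zero).1 hRne
  have hsq : Squarefree u := by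
    have : u.Separable := hcopu
    exact this.squarefree
  refine ⟨hsq, ?_⟩
  have hpel := hP K hodd u hum hsq
  rw [hR, hud, pow_add] at hpel
  have key : (-1 : AlgebraicClosure K) ^ Om u =
      (A * (algebraMap K (AlgebraicClosure K) c) ^ f.natDegree) ^ hq K * B := by
    rw [hpel]
    calc (-1 : AlgebraicClosure K) ^ Om u = (B * B) * (-1) ^ Om u := by rw [hB2, one_mul]
      _ = _ := by rw [hB]; ring
  rw [key, mul_pow, ← pow_mul, mul_comm f.natDegree (hq K)]
  ring

end Pool.Agent.W537.LF
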